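import Pool.Agent.Helper51.RP.Goals1
import Pool.Agent.Helper94.RS.RAT

/-!
# Packet RP-RAT: rationality of the logarithms, all primes `p`
-/

namespace Pool.Agent.Helper94.RP

theorem s_rat : Pool.Agent.Helper51.RP.S_RAT := by
  intro p _ k _ _ _ _ hj L H _ _ T hT
  exact Pool.Agent.Helper94.RS.s_rat_gen p hj L H T hT

end Pool.Agent.Helper94.RP
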