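import Pool.Agent.Helper26.RP.Goals

/-!
Packet GLU of helper26 (MP_105b7b_pr).
-/

noncomputable section

namespace RP.PkGLU

open RP MeasureTheory Filter Topology

theorem rf_rf (p : E) : rf (rf p) = p := by
  simp [rf]

theorem measurable_rf : Measurable rf := by
  unfold rf
  fun_prop

theorem mp_rf : MeasurePreserving rf (volume : Measure E) volume := by
  have h1 : MeasurePreserving (fun x : ℝ => -x) (volume : Measure ℝ) volume :=
    Measure.measurePreserving_neg volume
  have h2 := h1.prod (MeasurePreserving.id (volume : Measure ℝ))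
  exact h2

/-- The map `w ↦ (rf (w i.rev))_i` as a measurable equivalence. -/
def rho (n : ℕ) : (Fin n → E) ≃ᵐ (Fin n → E) where
  toFun w := fun i => rf (w i.rev)
  invFun w := fun i => rf (w i.rev)
  left_inv w := by
    funext i
    simp only [Fin.rev_rev, rf_rf]
  right_inv w := by
    funext i
    simp only [Fin.rev_rev, rf_rf]
  measurable_toFun := by
    apply measurable_pi_lambda
    intro i
    exact measurable_rf.comp (measurable_pi_apply _)
  measurable_invFun := by
    apply measurable_pi_lambda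
    intro i
    exact measurable_rf.comp (measurable_pi_apply _)

theorem mp_rho (n : ℕ) : MeasurePreserving (rho n) volume volume := by
  have h1 : MeasurePreserving (fun (w : Fin n → E) i => rf (w i)) volume volume :=
    volume_preserving_pi (fun _ => mp_rf)
  have h2 := volume_measurePreserving_piCongrLeft (fun _ : Fin n => E) (Fin.revPerm : Equiv.Perm (Fin n))
  have h3 := h1.comp h2
  have : ((fun (w : Fin n → E) i => rf (w i)) ∘ (MeasurableEquiv.piCongrLeft (fun _ : Fin n => E)
      (Fin.revPerm : Equiv.Perm (Fin n)))) = rho n := by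
    funext w
    funext i
    simp only [Function.comp, rho, MeasurableEquiv.coe_mk, Equiv.coe_fn_mk]
    congr 1
    have := MeasurableEquiv.piCongrLeft_apply_apply (e := (Fin.revPerm : Equiv.Perm (Fin n))) (β := fun _ : Fin n => E) w i.rev
    simpa using this
  rw [this] at h3
  exact h3

theorem vol_bx (c1 c2 r : ℝ) (hr : 0 < r) : volume (bx c1 c2 r) = ENNReal.ofReal ((2 * r) ^ 2) := by
  have h : bx c1 c2 r = Set.Icc (c1 - r) (c1 + r) ×ˢ Set.Icc (c2 - r) (c2 + r) := by
    ext p
    simp only [bx, Set.mem_setOf_eq, Set.mem_prod, Set.mem_Icc, abs_le]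
    constructor
    · rintro ⟨⟨h1, h2⟩, h3, h4⟩
      refine ⟨⟨by linarith, by linarith⟩, by linarith, by linarith⟩
    · rintro ⟨⟨h1, h2⟩, h3, h4⟩
      refine ⟨⟨by linarith, by linarith⟩, by linarith, by linarith⟩
  rw [h, Measure.volume_eq_prod, Measure.prod_prod, Real.volume_Icc, Real.volume_Icc]
  rw [← ENNReal.ofReal_mul (by linarith)]
  congr 1
  ring

/-- The equivalence of the configurations with the triples. -/
def psi (a b : ℕ) : (J a b → E) ≃ᵐ ((Fin (a + 2) → E) × (Fin (b + 2) → E)) × (Fin 2 → E) :=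
  (MeasurableEquiv.sumPiEquivProdPi (fun _ : J a b => E)).trans
    ((MeasurableEquiv.sumPiEquivProdPi (fun _ : Fin (a + 2) ⊕ Fin (b + 2) => E)).prodCongr
      (MeasurableEquiv.refl _))

theorem mp_psi (a b : ℕ) : MeasurePreserving (psi a b) volume volume := by
  have h1 := volume_measurePreserving_sumPiEquivProdPi (fun _ : J a b => E)
  have h2 := volume_measurePreserving_sumPiEquivProdPi (fun _ : Fin (a + 2) ⊕ Fin (b + 2) => E)
  have h3 := h2.prod (MeasurePreserving.id (volume : Measure (Fin 2 → E)))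
  exact h3.comp h1

theorem psi_apply (a b : ℕ) (z : J a b → E) :
    psi a b z = ((fun i => z (.inl (.inl i)), fun j => z (.inl (.inr j))), fun k => z (.inr k)) := rfl

theorem blk_mono {W U U' : Set E} {a : ℕ} (h : U ⊆ U') : Blk W U a ⊆ Blk W U' a := by
  rintro u ⟨h1, h2, h3, h4, h5⟩
  exact ⟨h1, h2, fun i => h (h3 i), h4, h5⟩

theorem blk_mem {W U K : Set E} {a : ℕ} (hW : W ⊆ K) (hU : U ⊆ K) {u : Fin (a + 2) → E}
    (hu : u ∈ Blk W U a) (i : Fin (a + 2)) : u i ∈ K := by
  obtain ⟨h1, h2, h3, -, -⟩ := hu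
  by_cases hi0 : i.val = 0
  · have : i = 0 := Fin.ext hi0
    rw [this]; exact hW h1
  · by_cases hil : i.val = a + 1
    · have : i = Fin.last (a + 1) := Fin.ext hil
      rw [this]; exact hW h2
    · have hlt := i.isLt
      have : i = (⟨i.val - 1, by omega⟩ : Fin a).succ.castSucc := by
        apply Fin.ext
        simp
        omega
      rw [this]
      exact hU (h3 _)

theorem glu : G_JOI → G_IDX → G_NUL → G_AFF → G_MEA → G_GLU := by
  intro hJ hI hN _ _ δ v σ D a b K U1 U2 hδ hv hσ hσ2 hD ha hb hU1 hU2 hK1 hK2 hK3 hK4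
  set W : Set E := bx (-(16 * δ)) 0 δ with hW
  rw [← hI a b K]
  -- the set of triples
  set B : Set (Fin 2 → E) := Set.pi Set.univ ![bx 0 v δ, bx 0 (-v) δ] with hB
  set R : Set (Fin (b + 2) → E) := (rho (b + 2)) ⁻¹' (Blk W U2 b) with hR
  have hvB : volume B = ENNReal.ofReal ((2 * δ) ^ 4) := by
    rw [hB, volume_pi_pi, Fin.prod_univ_two]
    simp only [Matrix.cons_val_zero, Matrix.cons_val_one]
    rw [vol_bx _ _ _ hδ, vol_bx _ _ _ hδ, ← ENNReal.ofReal_mul (by positivity)]
    congr 1
    ring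
  have hvR : volume R = volume (Blk W U2 b) := (mp_rho (b + 2)).measure_preimage_equiv _
  have hvS : volume ((psi a b) ⁻¹' ((Blk W U1 a ×ˢ R) ×ˢ B)) =
      volume (Blk W U1 a) * volume (Blk W U2 b) * ENNReal.ofReal ((2 * δ) ^ 4) := by
    rw [(mp_psi a b).measure_preimage_equiv]
    rw [Measure.volume_eq_prod, Measure.prod_prod, Measure.volume_eq_prod, Measure.prod_prod, hvR, hvB]
  rw [← hvS]
  apply measure_mono_ae
  have hGP := hN.2.1 (J a b)
  filter_upwards [hGP] with z hz hzS
  have hzS' : z ∈ (psi a b) ⁻¹' ((Blk W U1 a ×ˢ R) ×ˢ B) := hzS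
  rw [Set.mem_preimage, psi_apply] at hzS'
  obtain ⟨⟨hu, hw⟩, hg⟩ := hzS'
  simp only at hu hw hg
  have hz_eq : z = (Sum.elim (Sum.elim (fun i => z (.inl (.inl i))) (fun j => z (.inl (.inr j))))
      ![z (.inr 0), z (.inr 1)] : J a b → E) := by
    funext j
    rcases j with (j | j) | j
    · rfl
    · rfl
    · fin_cases j <;> rfl
  have hg0 : z (.inr 0) ∈ bx 0 v δ := hg 0 (Set.mem_univ _)
  have hg1 : z (.inr 1) ∈ bx 0 (-v) δ := hg 1 (Set.mem_univ _)
  have hw' : (fun i : Fin (b + 2) => rf (z (.inl (.inr i.rev)))) ∈ Blk W U2 b := hw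
  have hfar1 : U1 ⊆ {p | Far δ σ D p} := fun p hp => (hU1 p hp).2
  have hfar2 : U2 ⊆ {p | Far δ σ D p} := fun p hp => (hU2 p hp).2
  constructor
  · intro j
    rcases j with (j | j) | j
    · exact blk_mem hK1 (fun p hp => (hU1 p hp).1) hu j
    · have hrf : W ⊆ {p | rf p ∈ K} := by
        intro p hp
        apply hK2
        simp only [hW, bx, Set.mem_setOf_eq] at hp
        simp only [bx, Set.mem_setOf_eq, rf]
        refine ⟨?_, hp.2⟩
        rw [← abs_neg]
        have : -(-p.1 - 16 * δ) = p.1 - -(16 * δ) := by ring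
        rw [this]
        exact hp.1
      have := blk_mem (K := {p | rf p ∈ K}) hrf (fun p hp => (hU2 p hp).1) hw' j.rev
      simp only [Fin.rev_rev, Set.mem_setOf_eq, rf_rf] at this
      exact this
    · fin_cases j
      · exact hK3 hg0
      · exact hK4 hg1
  · have key := hJ δ v σ D a b (fun i => z (.inl (.inl i))) (fun j => z (.inl (.inr j))) (z (.inr 0)) (z (.inr 1))
      hδ hv hσ hσ2 hD ha hb (blk_mono hfar1 hu) (blk_mono hfar2 hw') hg0 hg1 (by rw [← hz_eq]; exact hz)
    rw [← hz_eq] at key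
    exact key

end RP.PkGLU
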