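import Pool.Agent.Helper26.RP.Goals

/-!
Packet MEA of helper26 (MP_105b7b_pr).
-/

noncomputable section

namespace RP.PkMEA

open RP MeasureTheory Filter Topology

/-- The set of pairs of segments which meet is closed. -/
theorem closed_meet :
    IsClosed {q : E × E × E × E | ¬ Disjoint (segment ℝ q.1 q.2.1) (segment ℝ q.2.2.1 q.2.2.2)} := by
  have h0 : {q : E × E × E × E | ¬ Disjoint (segment ℝ q.1 q.2.1) (segment ℝ q.2.2.1 q.2.2.2)} =
      Prod.fst '' {r : (E × E × E × E) × (unitInterval × unitInterval) |
        (1 - (r.2.1 : ℝ)) • r.1.1 + (r.2.1 : ℝ) • r.1.2.1 =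
          (1 - (r.2.2 : ℝ)) • r.1.2.2.1 + (r.2.2 : ℝ) • r.1.2.2.2} := by
    ext q
    constructor
    · intro hq
      have hq' : ¬ Disjoint (segment ℝ q.1 q.2.1) (segment ℝ q.2.2.1 q.2.2.2) := hq
      rw [Set.not_disjoint_iff] at hq'
      obtain ⟨p, hp1, hp2⟩ := hq'
      rw [segment_eq_image] at hp1 hp2
      obtain ⟨s, hs, hs'⟩ := hp1
      obtain ⟨t, ht, ht'⟩ := hp2
      refine ⟨(q, (⟨s, hs⟩, ⟨t, ht⟩)), ?_, rfl⟩
      show (1 - s) • q.1 + s • q.2.1 = (1 - t) • q.2.2.1 + t • q.2.2.2
      exact hs'.trans ht'.symm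
    · rintro ⟨⟨q', s, t⟩, hr, rfl⟩
      show ¬ Disjoint (segment ℝ q'.1 q'.2.1) (segment ℝ q'.2.2.1 q'.2.2.2)
      rw [Set.not_disjoint_iff]
      refine ⟨(1 - (s : ℝ)) • q'.1 + (s : ℝ) • q'.2.1, ?_, ?_⟩
      · rw [segment_eq_image]
        exact ⟨s, s.2, rfl⟩
      · rw [segment_eq_image]
        exact ⟨t, t.2, hr.symm⟩
  rw [h0]
  apply isClosedMap_fst_of_compactSpace
  apply isClosed_eq
  · fun_prop
  · fun_prop

theorem mnx {α : Type*} [MeasurableSpace α] {a b c d : α → E} (ha : Measurable a) (hb : Measurable b)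
    (hc : Measurable c) (hd : Measurable d) : MeasurableSet {z | NX (a z) (b z) (c z) (d z)} := by
  have h1 : MeasurableSet {z | a z = c z} := measurableSet_eq_fun ha hc
  have h2 : MeasurableSet {z | a z = d z} := measurableSet_eq_fun ha hd
  have h3 : MeasurableSet {z | b z = c z} := measurableSet_eq_fun hb hc
  have h4 : MeasurableSet {z | b z = d z} := measurableSet_eq_fun hb hd
  have h5 : MeasurableSet {z | Disjoint (segment ℝ (a z) (b z)) (segment ℝ (c z) (d z))} := by
    have hm : Measurable (fun z => ((a z, b z, c z, d z) : E × E × E × E)) :=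
      ha.prodMk (hb.prodMk (hc.prodMk hd))
    have := hm closed_meet.measurableSet.compl
    have he : {z | Disjoint (segment ℝ (a z) (b z)) (segment ℝ (c z) (d z))} =
        (fun z => ((a z, b z, c z, d z) : E × E × E × E)) ⁻¹'
          {q : E × E × E × E | ¬ Disjoint (segment ℝ q.1 q.2.1) (segment ℝ q.2.2.1 q.2.2.2)}ᶜ := by
      ext z
      constructor
      · intro h h'
        exact h' h
      · intro h
        by_contra h'
        exact h h'
    rw [he]
    exact this
  exact ((h1.union (h2.union (h3.union h4)))).union h5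

theorem measurable_orient : Measurable (fun q : E × E × E => orient q.1 q.2.1 q.2.2) := by
  unfold orient
  fun_prop

theorem mor {α : Type*} [MeasurableSpace α] {a b c : α → E} (ha : Measurable a) (hb : Measurable b)
    (hc : Measurable c) : Measurable (fun z => orient (a z) (b z) (c z)) := by
  have hm : Measurable (fun z => ((a z, b z, c z) : E × E × E)) := ha.prodMk (hb.prodMk hc)
  exact measurable_orient.comp hm

theorem mfst {α : Type*} [MeasurableSpace α] {a : α → E} (ha : Measurable a) :
    Measurable (fun z => (a z).1) := measurable_fst.comp ha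

theorem mgp (ι : Type*) [Fintype ι] : MeasurableSet {x : ι → E | GP x} := by
  have : {x : ι → E | GP x} = ⋂ i, ⋂ j, ⋂ k, ⋂ (_ : i ≠ j), ⋂ (_ : j ≠ k), ⋂ (_ : i ≠ k),
      {x : ι → E | orient (x i) (x j) (x k) ≠ 0} := by
    ext x
    simp only [Set.mem_iInter]
    exact Iff.rfl
  rw [this]
  refine MeasurableSet.iInter fun i => MeasurableSet.iInter fun j => MeasurableSet.iInter fun k =>
    MeasurableSet.iInter fun _ => MeasurableSet.iInter fun _ => MeasurableSet.iInter fun _ => ?_
  have hm : Measurable (fun x : ι → E => orient (x i) (x j) (x k)) :=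
    mor (measurable_pi_apply i) (measurable_pi_apply j) (measurable_pi_apply k)
  exact (measurableSet_eq_fun hm measurable_const).compl

theorem mcl (ι : Type*) [Fintype ι] (S : ι → ι) : MeasurableSet {x : ι → E | Cl S x} := by
  have : {x : ι → E | Cl S x} = {x : ι → E | GP x} ∩ ⋂ i, ⋂ j,
      {x : ι → E | NX (x i) (x (S i)) (x j) (x (S j))} := by
    ext x
    rw [Set.mem_inter_iff]
    simp only [Set.mem_iInter]
    exact Iff.rfl
  rw [this]
  refine (mgp ι).inter (MeasurableSet.iInter fun i => MeasurableSet.iInter fun j => ?_)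
  exact mnx (measurable_pi_apply _) (measurable_pi_apply _) (measurable_pi_apply _) (measurable_pi_apply _)

theorem mall {n : ℕ} {U : Set E} (hU : MeasurableSet U) : MeasurableSet {x : Fin n → E | ∀ i, x i ∈ U} := by
  have : {x : Fin n → E | ∀ i, x i ∈ U} = ⋂ i, (fun x : Fin n → E => x i) ⁻¹' U := by
    ext x
    simp only [Set.mem_iInter]
    exact Iff.rfl
  rw [this]
  exact MeasurableSet.iInter fun i => measurable_pi_apply i hU

theorem mea : G_MEA := by
  refine ⟨fun α _ a b c d ha hb hc hd => mnx ha hb hc hd, fun ι _ => mgp ι, fun ι _ S => mcl ι S, ?_, ?_⟩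
  · intro U n hU
    exact (mall hU).inter (mcl _ _)
  · intro W U a hW hU
    constructor
    · have : Blk W U a = ((fun u : Fin (a + 2) → E => u 0) ⁻¹' W) ∩
          (((fun u : Fin (a + 2) → E => u (Fin.last (a + 1))) ⁻¹' W) ∩
          ((⋂ i : Fin a, (fun u : Fin (a + 2) → E => u i.succ.castSucc) ⁻¹' U) ∩
          ((⋂ i : Fin (a + 1), ⋂ j : Fin (a + 1),
            {u : Fin (a + 2) → E | NX (u i.castSucc) (u i.succ) (u j.castSucc) (u j.succ)}) ∩
          {u : Fin (a + 2) → E | Low (u 1) (u 0) (u (Fin.last a).castSucc) (u (Fin.last (a + 1)))}))) := by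
        ext u
        simp only [Set.mem_inter_iff, Set.mem_iInter]
        exact Iff.rfl
      rw [this]
      have f1 : MeasurableSet ((fun u : Fin (a + 2) → E => u 0) ⁻¹' W) := measurable_pi_apply 0 hW
      have f2 : MeasurableSet ((fun u : Fin (a + 2) → E => u (Fin.last (a + 1))) ⁻¹' W) :=
        measurable_pi_apply (Fin.last (a + 1)) hW
      have f3 : MeasurableSet (⋂ i : Fin a, (fun u : Fin (a + 2) → E => u i.succ.castSucc) ⁻¹' U) :=
        MeasurableSet.iInter fun i => measurable_pi_apply i.succ.castSucc hU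
      have f4 : MeasurableSet (⋂ i : Fin (a + 1), ⋂ j : Fin (a + 1),
            {u : Fin (a + 2) → E | NX (u i.castSucc) (u i.succ) (u j.castSucc) (u j.succ)}) :=
        MeasurableSet.iInter fun i => MeasurableSet.iInter fun j =>
          mnx (measurable_pi_apply _) (measurable_pi_apply _) (measurable_pi_apply _) (measurable_pi_apply _)
      refine f1.inter (f2.inter (f3.inter (f4.inter ?_)))
      have m0 : Measurable (fun u : Fin (a + 2) → E => (u 0).1) := mfst (measurable_pi_apply _)
      have m1 : Measurable (fun u : Fin (a + 2) → E => (u (Fin.last (a + 1))).1) := mfst (measurable_pi_apply _)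
      have m2 : Measurable (fun u : Fin (a + 2) → E =>
          orient (u (Fin.last a).castSucc) (u (Fin.last (a + 1))) (u 0)) :=
        mor (measurable_pi_apply _) (measurable_pi_apply _) (measurable_pi_apply _)
      have m3 : Measurable (fun u : Fin (a + 2) → E =>
          orient (u 1) (u 0) (u (Fin.last (a + 1)))) :=
        mor (measurable_pi_apply _) (measurable_pi_apply _) (measurable_pi_apply _)
      have e1 : MeasurableSet {u : Fin (a + 2) → E | (u 0).1 ≤ (u (Fin.last (a + 1))).1} := measurableSet_le m0 m1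
      have e2 : MeasurableSet {u : Fin (a + 2) → E |
          orient (u (Fin.last a).castSucc) (u (Fin.last (a + 1))) (u 0) < 0} := measurableSet_lt m2 measurable_const
      have e3 : MeasurableSet {u : Fin (a + 2) → E | (u (Fin.last (a + 1))).1 ≤ (u 0).1} := measurableSet_le m1 m0
      have e4 : MeasurableSet {u : Fin (a + 2) → E | 0 < orient (u 1) (u 0) (u (Fin.last (a + 1)))} :=
        measurableSet_lt measurable_const m3
      exact (e1.inter e2).union (e3.inter e4)
    · have hz2 : Measurable (fun z : E × E × (Fin a → E) => z.2.2) := measurable_snd.comp measurable_snd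
      have hz1 : Measurable (fun z : E × E × (Fin a → E) => z.2.1) := measurable_fst.comp measurable_snd
      have hz0 : Measurable (fun z : E × E × (Fin a → E) => z.1) := measurable_fst
      have hvis : ∀ (s : E × E × (Fin a → E) → E), Measurable s →
          MeasurableSet {z : E × E × (Fin a → E) | Vis (s z) z.2.2} := by
        intro s hs
        have : {z : E × E × (Fin a → E) | Vis (s z) z.2.2} =
            ⋂ i : Fin a, ⋂ j : Fin a, ⋂ (_ : i.val = 0 ∨ i.val + 1 = a),
              {z : E × E × (Fin a → E) | NX (s z) (z.2.2 i) (z.2.2 j) (z.2.2 (finRotate a j))} := by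
          ext z
          simp only [Set.mem_iInter]
          exact Iff.rfl
        rw [this]
        exact MeasurableSet.iInter fun i => MeasurableSet.iInter fun j => MeasurableSet.iInter fun _ =>
          mnx hs ((measurable_pi_apply _).comp hz2) ((measurable_pi_apply _).comp hz2) ((measurable_pi_apply _).comp hz2)
      exact (hz0 hW).inter ((hz1 hW).inter ((hz2 (mall hU)).inter ((hz2 (mcl _ (finRotate a))).inter
        ((hvis _ hz0).inter (hvis _ hz1)))))

end RP.PkMEA
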